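import Mathlib

/-!
# MP_859019, Theorem B: the maximum principle
-/

set_option autoImplicit false

open scoped BigOperators Topology
open Set Filter

namespace Pool.Agent.QB

/-- `F` is differentiable near `0` and its derivative has the derivative `D` at `0` -/
def C2at (F : ℝ → ℝ) (D : ℝ) : Prop :=
  ∃ F' : ℝ → ℝ, (∀ᶠ x in 𝓝 (0 : ℝ), HasDerivAt F (F' x) x) ∧ HasDerivAt F' D 0

theorem C2at.congr {F G : ℝ → ℝ} {D : ℝ} (h : C2at F D) (e : ∀ᶠ x in 𝓝 (0 : ℝ), F x = G x) :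
    C2at G D := by
  obtain ⟨F', h1, h2⟩ := h
  refine ⟨F', ?_, h2⟩
  filter_upwards [h1, e.eventually_nhds] with x hx ex
  exact hx.congr_of_eventuallyEq (ex.mono fun y hy => hy.symm)

theorem C2at.add {F G : ℝ → ℝ} {D E : ℝ} (h : C2at F D) (k : C2at G E) :
    C2at (fun x => F x + G x) (D + E) := by
  obtain ⟨F', h1, h2⟩ := h
  obtain ⟨G', k1, k2⟩ := k
  refine ⟨fun x => F' x + G' x, ?_, h2.add k2⟩
  filter_upwards [h1, k1] with x hx kx
  exact hx.add kx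

theorem C2at.const_mul {F : ℝ → ℝ} {D : ℝ} (c : ℝ) (h : C2at F D) :
    C2at (fun x => c * F x) (c * D) := by
  obtain ⟨F', h1, h2⟩ := h
  refine ⟨fun x => c * F' x, ?_, h2.const_mul c⟩
  filter_upwards [h1] with x hx
  exact hx.const_mul c

theorem C2at.zero : C2at (fun _ => (0 : ℝ)) 0 :=
  ⟨fun _ => 0, Eventually.of_forall fun x => hasDerivAt_const x 0, hasDerivAt_const 0 0⟩

theorem C2at.sum {J : Type} (s : Finset J) {F : J → ℝ → ℝ} {D : J → ℝ}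
    (h : ∀ j ∈ s, C2at (F j) (D j)) : C2at (fun x => ∑ j ∈ s, F j x) (∑ j ∈ s, D j) := by
  classical
  induction s using Finset.induction_on with
  | empty => simpa using C2at.zero
  | insert j s hj ih =>
    have h1 := (h j (Finset.mem_insert_self j s)).add
      (ih fun i hi => h i (Finset.mem_insert_of_mem hi))
    simpa [Finset.sum_insert hj] using h1

theorem C2at.unique {F : ℝ → ℝ} {D E : ℝ} (h : C2at F D) (k : C2at F E) : D = E := by
  obtain ⟨F', h1, h2⟩ := h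
  obtain ⟨G', k1, k2⟩ := k
  have e : F' =ᶠ[𝓝 0] G' := by
    filter_upwards [h1, k1] with x hx kx
    exact hx.unique kx
  exact h2.unique (k2.congr_of_eventuallyEq e)

/-- at a local minimum the second derivative is nonnegative and the first one vanishes -/
theorem C2at.nonneg_of_min {F : ℝ → ℝ} {D : ℝ} (h : C2at F D)
    (hm : ∀ᶠ x in 𝓝 (0 : ℝ), F 0 ≤ F x) : 0 ≤ D := by
  obtain ⟨F', h1, h2⟩ := h
  by_contra hD
  push Not at hD
  have h0 : F' 0 = 0 := (show IsLocalMin F 0 from hm).hasDerivAt_eq_zero h1.self_of_nhds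
  -- `F' x < 0` for small `x > 0`
  have h3 : ∀ᶠ x in 𝓝[>] (0 : ℝ), F' x < 0 := by
    have := h2.hasDerivWithinAt (s := Ioi 0)
    rw [hasDerivWithinAt_iff_tendsto_slope' (by simp)] at this
    have h4 : ∀ᶠ x in 𝓝[>] (0 : ℝ), slope F' 0 x < 0 :=
      this.eventually_lt_const hD
    filter_upwards [h4, self_mem_nhdsWithin] with x hx hx0
    rw [slope_def_field, h0, sub_zero, sub_zero] at hx
    have hx0' : (0 : ℝ) < x := hx0
    by_contra hc
    push Not at hc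
    exact absurd hx (not_lt.2 (div_nonneg hc hx0'.le))
  obtain ⟨e1, he1, H1⟩ := Metric.eventually_nhds_iff.1 (h1.and hm)
  rw [eventually_nhdsWithin_iff] at h3
  obtain ⟨e3, he3, H3⟩ := Metric.eventually_nhds_iff.1 h3
  set e := min e1 e3 / 2 with he
  have hepos : 0 < e := by positivity
  have hle1 : e < e1 := by
    have : min e1 e3 ≤ e1 := min_le_left _ _
    have h5 : 0 < min e1 e3 := lt_min he1 he3
    rw [he]; linarith
  have hle3 : e < e3 := by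
    have : min e1 e3 ≤ e3 := min_le_right _ _
    have h5 : 0 < min e1 e3 := lt_min he1 he3
    rw [he]; linarith
  have hd : ∀ x ∈ Icc (0 : ℝ) e, HasDerivAt F (F' x) x := by
    intro x hx
    refine (H1 ?_).1
    rw [Real.dist_eq, sub_zero, abs_of_nonneg hx.1]
    exact lt_of_le_of_lt hx.2 hle1
  have hanti : StrictAntiOn F (Icc 0 e) := by
    apply strictAntiOn_of_deriv_neg (convex_Icc 0 e)
    · exact fun x hx => (hd x hx).continuousAt.continuousWithinAt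
    · intro x hx
      rw [interior_Icc] at hx
      rw [(hd x ⟨hx.1.le, hx.2.le⟩).deriv]
      refine H3 ?_ hx.1
      rw [Real.dist_eq, sub_zero, abs_of_nonneg hx.1.le]
      exact lt_trans hx.2 hle3
  have h6 : F e < F 0 := hanti ⟨le_rfl, hepos.le⟩ ⟨hepos.le, le_rfl⟩ hepos
  have h7 : F 0 ≤ F e := by
    refine (H1 ?_).2
    rw [Real.dist_eq, sub_zero, abs_of_nonneg hepos.le]
    exact hle1
  exact absurd h6 (not_lt.2 h7)

theorem C2at.affine_rpow (p b : ℝ) : C2at (fun x => (1 + b * x) ^ p) (p * (p - 1) * b ^ 2) := by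
  have hpos : ∀ᶠ x in 𝓝 (0 : ℝ), 0 < 1 + b * x := by
    have hc : ContinuousAt (fun x : ℝ => 1 + b * x) 0 := by fun_prop
    exact hc.eventually (Ioi_mem_nhds (by simp))
  refine ⟨fun x => b * p * (1 + b * x) ^ (p - 1), ?_, ?_⟩
  · filter_upwards [hpos] with x hx
    have h1 : HasDerivAt (fun x : ℝ => 1 + b * x) b x := by
      simpa using ((hasDerivAt_id x).const_mul b).const_add 1
    exact h1.rpow_const (Or.inl hx.ne')
  · have h1 : HasDerivAt (fun x : ℝ => 1 + b * x) b 0 := by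
      simpa using ((hasDerivAt_id (0 : ℝ)).const_mul b).const_add 1
    have h2 : HasDerivAt (fun x : ℝ => (1 + b * x) ^ (p - 1)) (b * (p - 1) * (1 + b * 0) ^ (p - 1 - 1)) 0 :=
      h1.rpow_const (Or.inl (by simp))
    have h3 := h2.const_mul (b * p)
    refine h3.congr_deriv ?_
    simp
    ring

/-- the homogeneity curve: `(1 + x)^p F (g ((1+x)^{-2} - 1))` -/
theorem C2at.hom {F : ℝ → ℝ} {D : ℝ} (h : C2at F D) (hm : ∀ᶠ x in 𝓝 (0 : ℝ), F 0 ≤ F x)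
    (p g : ℝ) :
    C2at (fun x => (1 + x) ^ p * F (g * (((1 + x) ^ 2)⁻¹ - 1)))
      (p * (p - 1) * F 0 + 4 * g ^ 2 * D) := by
  obtain ⟨F', h1, h2⟩ := h
  have h0 : F' 0 = 0 := (show IsLocalMin F 0 from hm).hasDerivAt_eq_zero h1.self_of_nhds
  set u : ℝ → ℝ := fun x => g * (((1 + x) ^ 2)⁻¹ - 1) with hu
  set u' : ℝ → ℝ := fun x => g * (-(2 * (1 + x)) / ((1 + x) ^ 2) ^ 2) with hu'
  have hpos : ∀ᶠ x in 𝓝 (0 : ℝ), 0 < 1 + x := by
    have hc : ContinuousAt (fun x : ℝ => 1 + x) 0 := by fun_prop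
    exact hc.eventually (Ioi_mem_nhds (by simp))
  have hb : ∀ x : ℝ, HasDerivAt (fun x : ℝ => 1 + x) 1 x := fun x => by
    simpa using (hasDerivAt_id x).const_add 1
  have hdu : ∀ x : ℝ, 0 < 1 + x → HasDerivAt u (u' x) x := by
    intro x hx
    have h3 : HasDerivAt (fun x : ℝ => (1 + x) ^ 2) (2 * (1 + x)) x := by
      have := (hb x).fun_pow 2
      simpa using this
    have h4 := (h3.inv (by positivity : (1 + x) ^ 2 ≠ 0)).sub_const 1
    exact h4.const_mul g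
  have hu0 : u 0 = 0 := by simp [hu]
  have hu'0 : u' 0 = -2 * g := by simp [hu']; ring
  have hcu : Tendsto u (𝓝 0) (𝓝 0) := by
    have := (hdu 0 (by simp)).continuousAt
    rw [ContinuousAt, hu0] at this
    exact this
  refine ⟨fun x => p * (1 + x) ^ (p - 1) * F (u x) + (1 + x) ^ p * (F' (u x) * u' x), ?_, ?_⟩
  · filter_upwards [hpos, hcu.eventually h1] with x hx hFx
    have h3 : HasDerivAt (fun x : ℝ => (1 + x) ^ p) (1 * p * (1 + x) ^ (p - 1)) x :=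
      (hb x).rpow_const (Or.inl hx.ne')
    have h4 : HasDerivAt (fun x => F (u x)) (F' (u x) * u' x) x := hFx.comp x (hdu x hx)
    refine (h3.mul h4).congr_deriv ?_
    ring
  · have h3 : HasDerivAt (fun x : ℝ => (1 + x) ^ p) (1 * p * (1 + 0) ^ (p - 1)) 0 :=
      (hb 0).rpow_const (Or.inl (by simp))
    have h3' : HasDerivAt (fun x : ℝ => (1 + x) ^ (p - 1))
        (1 * (p - 1) * (1 + 0) ^ (p - 1 - 1)) 0 :=
      (hb 0).rpow_const (Or.inl (by simp))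
    have hF0 : HasDerivAt F (F' (u 0)) (u 0) := by rw [hu0]; exact h1.self_of_nhds
    have h4 : HasDerivAt (fun x => F (u x)) (F' (u 0) * u' 0) 0 := hF0.comp 0 (hdu 0 (by simp))
    have hF2 : HasDerivAt F' D (u 0) := by rw [hu0]; exact h2
    have h5 : HasDerivAt (fun x => F' (u x)) (D * u' 0) 0 := hF2.comp 0 (hdu 0 (by simp))
    have h6 : ∃ w, HasDerivAt u' w 0 := by
      have h7 : DifferentiableAt ℝ u' 0 := by
        rw [hu']
        refine DifferentiableAt.const_mul (DifferentiableAt.div ?_ ?_ (by simp)) g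
        · fun_prop
        · fun_prop
      exact ⟨_, h7.hasDerivAt⟩
    obtain ⟨w, hw⟩ := h6
    have h8 := (h3'.const_mul p).mul h4
    have h9 := h3.mul (h5.mul hw)
    refine (h8.add h9).congr_deriv ?_
    have e1 : ((fun x => F' (u x)) * u') 0 = F' (u 0) * u' 0 := rfl
    rw [e1, hu0, h0, hu'0]
    simp
    ring

/-- the maximum principle -/
theorem mp_abs {p : ℝ} (hp : 1 < p) (ψ : ℝ → ℝ → ℝ)
    (hc : ContinuousOn (fun q : ℝ × ℝ => ψ q.1 q.2) (Icc (0 : ℝ) 1 ×ˢ Icc (0 : ℝ) 1))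
    (h00 : ∀ γ ∈ Icc (0 : ℝ) 1, 0 ≤ ψ 0 γ) (h01 : ∀ γ ∈ Icc (0 : ℝ) 1, 0 ≤ ψ 1 γ)
    (h10 : ∀ a ∈ Icc (0 : ℝ) 1, 0 ≤ ψ a 0) (h11 : ∀ a ∈ Icc (0 : ℝ) 1, 0 ≤ ψ a 1)
    (hop : ∀ a ∈ Ioo (0 : ℝ) 1, ∀ γ ∈ Ioo (0 : ℝ) 1, ∃ D1 D2 D3 : ℝ,
      C2at (fun x => (1 + (2 * a - 1) * x) ^ p *
        ψ (a * (1 + x) / (1 + (2 * a - 1) * x)) (γ / (1 - x ^ 2))) D1 ∧
      C2at (fun x => (1 + x) ^ p * ψ a (γ / (1 + x) ^ 2)) D2 ∧
      C2at (fun y => ψ a (γ + y / (a * (1 - a)))) D3 ∧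
      0 ≤ D2 - D1 - 4 * (a * (1 - a)) * (γ * (a * (1 - a))) * D3) :
    ∀ a ∈ Icc (0 : ℝ) 1, ∀ γ ∈ Icc (0 : ℝ) 1, 0 ≤ ψ a γ := by
  have hcomp : IsCompact (Icc (0 : ℝ) 1 ×ˢ Icc (0 : ℝ) 1) := isCompact_Icc.prod isCompact_Icc
  obtain ⟨⟨a, γ⟩, hmem, hmin⟩ := hcomp.exists_isMinOn
    ⟨(0, 0), by simp⟩ hc
  have hmin' : ∀ a' ∈ Icc (0 : ℝ) 1, ∀ γ' ∈ Icc (0 : ℝ) 1, ψ a γ ≤ ψ a' γ' :=
    fun a' ha' γ' hγ' => hmin (show (a', γ') ∈ _ from ⟨ha', hγ'⟩)
  have hmem1 : a ∈ Icc (0 : ℝ) 1 := hmem.1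
  have hmem2 : γ ∈ Icc (0 : ℝ) 1 := hmem.2
  suffices hgoal : 0 ≤ ψ a γ from fun a' ha' γ' hγ' => hgoal.trans (hmin' a' ha' γ' hγ')
  by_contra hneg
  push Not at hneg
  have ha0 : a ≠ 0 := by
    rintro rfl; exact absurd (h00 γ hmem2) (not_le.2 hneg)
  have ha1 : a ≠ 1 := by
    rintro rfl; exact absurd (h01 γ hmem2) (not_le.2 hneg)
  have hγ0 : γ ≠ 0 := by
    rintro rfl; exact absurd (h10 a hmem1) (not_le.2 hneg)
  have hγ1 : γ ≠ 1 := by
    rintro rfl; exact absurd (h11 a hmem1) (not_le.2 hneg)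
  have ha : 0 < a := lt_of_le_of_ne hmem1.1 (Ne.symm ha0)
  have ha' : a < 1 := lt_of_le_of_ne hmem1.2 ha1
  have hγ : 0 < γ := lt_of_le_of_ne hmem2.1 (Ne.symm hγ0)
  have hγ' : γ < 1 := lt_of_le_of_ne hmem2.2 hγ1
  obtain ⟨D1, D2, D3, c1, c2, c3, hpos⟩ := hop a ⟨ha, ha'⟩ γ ⟨hγ, hγ'⟩
  set m := ψ a γ with hm
  set b := a * (1 - a) with hb
  have hbpos : 0 < b := mul_pos ha (by linarith)
  -- third curve
  have min3 : ∀ᶠ y in 𝓝 (0 : ℝ), ψ a (γ + 0 / b) ≤ ψ a (γ + y / b) := by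
    have hct : ContinuousAt (fun y : ℝ => γ + y / b) 0 := by fun_prop
    have : ∀ᶠ y in 𝓝 (0 : ℝ), γ + y / b ∈ Ioo (0 : ℝ) 1 :=
      hct.eventually (Ioo_mem_nhds (by simpa using hγ) (by simpa using hγ'))
    filter_upwards [this] with y hy
    have := hmin' a hmem1 (γ + y / b) ⟨hy.1.le, hy.2.le⟩
    simpa using this
  have hD3 : 0 ≤ D3 := c3.nonneg_of_min min3
  -- second curve
  have c2' := (c3.hom min3 p (γ * b)).congr (G := fun x => (1 + x) ^ p * ψ a (γ / (1 + x) ^ 2))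
    (Eventually.of_forall fun x => by
      have : γ + γ * b * (((1 + x) ^ 2)⁻¹ - 1) / b = γ / (1 + x) ^ 2 := by
        field_simp
        ring
      simp only [this])
  have e2 := c2.unique c2'
  -- first curve
  have c1' := c1.add ((C2at.affine_rpow p (2 * a - 1)).const_mul (-m))
  have min1 : ∀ᶠ x in 𝓝 (0 : ℝ),
      (1 + (2 * a - 1) * 0) ^ p * ψ (a * (1 + 0) / (1 + (2 * a - 1) * 0)) (γ / (1 - 0 ^ 2)) +
        -m * (1 + (2 * a - 1) * 0) ^ p ≤
      (1 + (2 * a - 1) * x) ^ p * ψ (a * (1 + x) / (1 + (2 * a - 1) * x)) (γ / (1 - x ^ 2)) +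
        -m * (1 + (2 * a - 1) * x) ^ p := by
    have hN : ContinuousAt (fun x : ℝ => 1 + (2 * a - 1) * x) 0 := by fun_prop
    have h1 : ∀ᶠ x in 𝓝 (0 : ℝ), 0 < 1 + (2 * a - 1) * x :=
      hN.eventually (Ioi_mem_nhds (by simp))
    have h2 : ∀ᶠ x in 𝓝 (0 : ℝ), a * (1 + x) / (1 + (2 * a - 1) * x) ∈ Ioo (0 : ℝ) 1 := by
      have : ContinuousAt (fun x : ℝ => a * (1 + x) / (1 + (2 * a - 1) * x)) 0 := by
        refine ContinuousAt.div (by fun_prop) hN (by simp)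
      exact this.eventually (Ioo_mem_nhds (by simpa using ha) (by simpa using ha'))
    have h3 : ∀ᶠ x in 𝓝 (0 : ℝ), γ / (1 - x ^ 2) ∈ Ioo (0 : ℝ) 1 := by
      have : ContinuousAt (fun x : ℝ => γ / (1 - x ^ 2)) 0 := by
        refine ContinuousAt.div (by fun_prop) (by fun_prop) (by simp)
      exact this.eventually (Ioo_mem_nhds (by simpa using hγ) (by simpa using hγ'))
    filter_upwards [h1, h2, h3] with x hx1 hx2 hx3
    have h4 := hmin' _ ⟨hx2.1.le, hx2.2.le⟩ _ ⟨hx3.1.le, hx3.2.le⟩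
    have h5 : 0 ≤ (1 + (2 * a - 1) * x) ^ p := Real.rpow_nonneg hx1.le p
    have h6 : (1 + (2 * a - 1) * x) ^ p * m ≤
        (1 + (2 * a - 1) * x) ^ p * ψ (a * (1 + x) / (1 + (2 * a - 1) * x)) (γ / (1 - x ^ 2)) :=
      mul_le_mul_of_nonneg_left h4 h5
    have h7 : (1 + (2 * a - 1) * 0) ^ p * ψ (a * (1 + 0) / (1 + (2 * a - 1) * 0)) (γ / (1 - 0 ^ 2)) +
        -m * (1 + (2 * a - 1) * 0) ^ p = 0 := by
      simp [hm]
    rw [h7]
    linarith
  have hD1 : 0 ≤ D1 + -m * (p * (p - 1) * (2 * a - 1) ^ 2) := c1'.nonneg_of_min min1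
  have hF0 : ψ a (γ + 0 / b) = m := by simp [hm]
  rw [hF0] at e2
  have k1 : 4 * (γ * b) * (b - γ * b) * D3 ≥ 0 := by
    have : 0 ≤ b - γ * b := by nlinarith
    positivity
  have k2 : p * (p - 1) * m * (4 * b) < 0 := by
    have : 0 < p * (p - 1) * (4 * b) := by
      have : 0 < p - 1 := by linarith
      positivity
    nlinarith
  have k3 : (2 * a - 1) ^ 2 = 1 - 4 * b := by rw [hb]; ring
  rw [k3] at hD1
  nlinarith

end Pool.Agent.QB
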