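import Pool.Agent.Lib_helper18.LDK.TrP
import Pool.Agent.Lib_helper69.QB.MP
import Pool.Agent.Lib_helper88.QB.SC

/-!
# MP_859019, QS (one side rank two blocks, the other side arbitrary, every `α > 3`): definitions
-/

set_option autoImplicit false

open scoped BigOperators ComplexOrder Kronecker MatrixOrder Topology
open MeasureTheory Set Matrix Filter

namespace Pool.Agent.QB

open Pool.Agent.RC Pool.Agent.LDK

variable {ι κ : Type} [Fintype ι] [DecidableEq ι] [Fintype κ] [DecidableEq κ]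

/-- the projection on `(1, 0)` -/
def E1 : Matrix (Fin 2) (Fin 2) ℂ := !![1, 0; 0, 0]

/-- the projection on `(√γ, √(1 - γ))` -/
noncomputable def E2 (γ : ℝ) : Matrix (Fin 2) (Fin 2) ℂ :=
  !![(γ : ℂ), ((√γ * √(1 - γ) : ℝ) : ℂ); ((√γ * √(1 - γ) : ℝ) : ℂ), ((1 - γ : ℝ) : ℂ)]

/-- `f₁f₁* ⊗ S + f₂f₂* ⊗ T` with `f₁ = √α (1, 0)`, `f₂ = √β (√γ, √(1 - γ))` -/
noncomputable def Mt (α β γ : ℝ) (S T : Matrix κ κ ℂ) : Matrix (Fin 2 × κ) (Fin 2 × κ) ℂ :=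
  (α : ℂ) • (E1 ⊗ₖ S) + (β : ℂ) • (E2 γ ⊗ₖ T)

/-- `Tr (f₁f₁* ⊗ S + f₂f₂* ⊗ T)^p` -/
noncomputable def Hp (p α β γ : ℝ) (S T : Matrix κ κ ℂ) : ℝ :=
  trF (fun x => x ^ p) (Mt α β γ S T)

/-- the affine matrix with the same spectrum (`g = γ α β`) -/
noncomputable def Maf (α β g : ℝ) (S T : Matrix κ κ ℂ) : Matrix (κ ⊕ κ) (κ ⊕ κ) ℂ :=
  Matrix.fromBlocks ((α : ℂ) • S) ((g : ℂ) • T) S ((β : ℂ) • T)

/-- conjugation by `σ_y ⊗ 1` -/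
noncomputable def flp (X : Matrix (Fin 2 × κ) (Fin 2 × κ) ℂ) : Matrix (Fin 2 × κ) (Fin 2 × κ) ℂ :=
  ((!![0, -Complex.I; Complex.I, 0] : Matrix (Fin 2) (Fin 2) ℂ) ⊗ₖ (1 : Matrix κ κ ℂ)) * X *
    ((!![0, -Complex.I; Complex.I, 0] : Matrix (Fin 2) (Fin 2) ℂ) ⊗ₖ (1 : Matrix κ κ ℂ))

end Pool.Agent.QB
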