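import Pool.Agent.Lib_helper69.QB.MP

/-!
# MP_859019, QS, block CIM: second derivative of a contour integral along an affine family
-/

set_option autoImplicit false

open scoped BigOperators Topology Real
open MeasureTheory Set Matrix Filter Metric

namespace Pool.Agent.QB

variable {m : Type} [Fintype m] [DecidableEq m]

/-- differentiation under the circle integral -/
theorem hasDerivAt_circle {c : ℂ} {ρ : ℝ} (hρ : 0 ≤ ρ) {F F' : ℝ → ℂ → ℂ} {x0 δ : ℝ} (hδ : 0 < δ)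
    (hF : ∀ x, |x - x0| ≤ δ → ContinuousOn (F x) (sphere c ρ))
    (hF' : ContinuousOn (fun q : ℝ × ℂ => F' q.1 q.2) ({x | |x - x0| ≤ δ} ×ˢ sphere c ρ))
    (hd : ∀ x, |x - x0| ≤ δ → ∀ z ∈ sphere c ρ, HasDerivAt (fun x => F x z) (F' x z) x) :
    HasDerivAt (fun x => ∮ z in C(c, ρ), F x z) (∮ z in C(c, ρ), F' x0 z) x0 := by
  have hset : {x : ℝ | |x - x0| ≤ δ} = closedBall x0 δ := by
    ext x; simp [Real.dist_eq]
  have hcomp : IsCompact ({x : ℝ | |x - x0| ≤ δ} ×ˢ sphere c ρ) := by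
    rw [hset]; exact (isCompact_closedBall x0 δ).prod (isCompact_sphere c ρ)
  obtain ⟨B, hB⟩ := hcomp.exists_bound_of_continuousOn hF'
  have hx0 : |x0 - x0| ≤ δ := by simp [hδ.le]
  have hmap : ∀ θ : ℝ, circleMap c ρ θ ∈ sphere c ρ := fun θ => circleMap_mem_sphere c hρ θ
  have hcont : ∀ x, |x - x0| ≤ δ →
      Continuous fun θ : ℝ => deriv (circleMap c ρ) θ • F x (circleMap c ρ θ) := by
    intro x hx
    have h1 : Continuous fun θ : ℝ => F x (circleMap c ρ θ) :=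
      (hF x hx).comp_continuous (continuous_circleMap c ρ) hmap
    have h2 : Continuous fun θ : ℝ => deriv (circleMap c ρ) θ := by
      simp only [deriv_circleMap]; fun_prop
    exact h2.smul h1
  have hcont' : Continuous fun θ : ℝ => deriv (circleMap c ρ) θ • F' x0 (circleMap c ρ θ) := by
    have h1 : Continuous fun θ : ℝ => F' x0 (circleMap c ρ θ) := by
      have h3 : Continuous fun θ : ℝ => ((x0, circleMap c ρ θ) : ℝ × ℂ) := by fun_prop
      exact hF'.comp_continuous h3 fun θ => ⟨hx0, hmap θ⟩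
    have h2 : Continuous fun θ : ℝ => deriv (circleMap c ρ) θ := by
      simp only [deriv_circleMap]; fun_prop
    exact h2.smul h1
  have key := intervalIntegral.hasDerivAt_integral_of_dominated_loc_of_deriv_le
    (μ := volume) (a := 0) (b := 2 * π) (𝕜 := ℝ)
    (F := fun x θ => deriv (circleMap c ρ) θ • F x (circleMap c ρ θ))
    (F' := fun x θ => deriv (circleMap c ρ) θ • F' x (circleMap c ρ θ))
    (x₀ := x0) (s := ball x0 δ) (bound := fun _ => ρ * B)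
    (ball_mem_nhds x0 hδ)
    (by
      filter_upwards [ball_mem_nhds x0 hδ] with x hx
      have hx' : |x - x0| ≤ δ := by
        rw [mem_ball, Real.dist_eq] at hx; exact hx.le
      exact (hcont x hx').aestronglyMeasurable)
    ((hcont x0 hx0).intervalIntegrable _ _)
    hcont'.aestronglyMeasurable
    (by
      refine Eventually.of_forall fun θ _ x hx => ?_
      have hx' : |x - x0| ≤ δ := by
        rw [mem_ball, Real.dist_eq] at hx; exact hx.le
      have h1 := hB (x, circleMap c ρ θ) ⟨hx', hmap θ⟩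
      rw [norm_smul]
      have h2 : ‖deriv (circleMap c ρ) θ‖ = ρ := by
        rw [deriv_circleMap]; simp [circleMap, abs_of_nonneg hρ]
      rw [h2]
      exact mul_le_mul_of_nonneg_left h1 hρ)
    (by simp)
    (by
      refine Eventually.of_forall fun θ _ x hx => ?_
      have hx' : |x - x0| ≤ δ := by
        rw [mem_ball, Real.dist_eq] at hx; exact hx.le
      exact (hd x hx' _ (hmap θ)).const_smul (deriv (circleMap c ρ) θ))
  exact key.2

variable (M0 M1 : Matrix m m ℂ)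

/-- the resolvent -/
noncomputable def RR (x : ℝ) (z : ℂ) : Matrix m m ℂ :=
  (z • (1 : Matrix m m ℂ) - (M0 + (x : ℂ) • M1))⁻¹

theorem RR_cont {x : ℝ} {z : ℂ} (h : (z • (1 : Matrix m m ℂ) - (M0 + (x : ℂ) • M1)).det ≠ 0) :
    ContinuousAt (fun q : ℝ × ℂ => RR M0 M1 q.1 q.2) (x, z) := by
  have h1 : Continuous fun q : ℝ × ℂ => (q.2 • (1 : Matrix m m ℂ) - (M0 + (q.1 : ℂ) • M1)) := by
    fun_prop
  have h2 : (fun q : ℝ × ℂ => RR M0 M1 q.1 q.2) = fun q =>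
      ((q.2 • (1 : Matrix m m ℂ) - (M0 + (q.1 : ℂ) • M1)).det)⁻¹ •
        (q.2 • (1 : Matrix m m ℂ) - (M0 + (q.1 : ℂ) • M1)).adjugate := by
    funext q
    rw [RR, Matrix.inv_def, Ring.inverse_eq_inv']
  rw [h2]
  exact (h1.matrix_det.continuousAt.inv₀ h).smul h1.matrix_adjugate.continuousAt

theorem RR_sub_x {x y : ℝ} {z : ℂ} (hx : (z • (1 : Matrix m m ℂ) - (M0 + (x : ℂ) • M1)).det ≠ 0)
    (hy : (z • (1 : Matrix m m ℂ) - (M0 + (y : ℂ) • M1)).det ≠ 0) :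
    RR M0 M1 y z - RR M0 M1 x z = ((y : ℂ) - x) • (RR M0 M1 y z * M1 * RR M0 M1 x z) := by
  set P := z • (1 : Matrix m m ℂ) - (M0 + (x : ℂ) • M1) with hP
  set Q := z • (1 : Matrix m m ℂ) - (M0 + (y : ℂ) • M1) with hQ
  have e1 : P - Q = ((y : ℂ) - x) • M1 := by
    rw [hP, hQ, sub_smul]; abel
  have hPi : P * P⁻¹ = 1 := Matrix.mul_nonsing_inv P (Ne.isUnit hx)
  have hQi : Q⁻¹ * Q = 1 := Matrix.nonsing_inv_mul Q (Ne.isUnit hy)
  change Q⁻¹ - P⁻¹ = ((y : ℂ) - x) • (Q⁻¹ * M1 * P⁻¹)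
  have e2 : Q⁻¹ * (P - Q) * P⁻¹ = Q⁻¹ - P⁻¹ := by
    rw [Matrix.mul_sub, Matrix.sub_mul, Matrix.mul_assoc, hPi, hQi, Matrix.mul_one, Matrix.one_mul]
  rw [← e2, e1, Matrix.mul_smul, Matrix.smul_mul]

theorem RR_sub_z {x : ℝ} {z w : ℂ} (hz : (z • (1 : Matrix m m ℂ) - (M0 + (x : ℂ) • M1)).det ≠ 0)
    (hw : (w • (1 : Matrix m m ℂ) - (M0 + (x : ℂ) • M1)).det ≠ 0) :
    RR M0 M1 x w - RR M0 M1 x z = (w - z) • (-(RR M0 M1 x w * RR M0 M1 x z)) := by
  set P := z • (1 : Matrix m m ℂ) - (M0 + (x : ℂ) • M1) with hP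
  set Q := w • (1 : Matrix m m ℂ) - (M0 + (x : ℂ) • M1) with hQ
  have e1 : P - Q = (z - w) • (1 : Matrix m m ℂ) := by
    rw [hP, hQ, sub_smul]; abel
  have hPi : P * P⁻¹ = 1 := Matrix.mul_nonsing_inv P (Ne.isUnit hz)
  have hQi : Q⁻¹ * Q = 1 := Matrix.nonsing_inv_mul Q (Ne.isUnit hw)
  change Q⁻¹ - P⁻¹ = (w - z) • (-(Q⁻¹ * P⁻¹))
  have e2 : Q⁻¹ * (P - Q) * P⁻¹ = Q⁻¹ - P⁻¹ := by
    rw [Matrix.mul_sub, Matrix.sub_mul, Matrix.mul_assoc, hPi, hQi, Matrix.mul_one, Matrix.one_mul]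
  rw [← e2, e1, Matrix.mul_smul, Matrix.smul_mul, Matrix.mul_one, smul_neg, ← neg_smul, neg_sub]

theorem det_ev_x {x : ℝ} {z : ℂ} (h : (z • (1 : Matrix m m ℂ) - (M0 + (x : ℂ) • M1)).det ≠ 0) :
    ∀ᶠ y : ℝ in 𝓝 x, (z • (1 : Matrix m m ℂ) - (M0 + (y : ℂ) • M1)).det ≠ 0 := by
  have h1 : Continuous fun y : ℝ => (z • (1 : Matrix m m ℂ) - (M0 + (y : ℂ) • M1)).det := by
    have : Continuous fun y : ℝ => (z • (1 : Matrix m m ℂ) - (M0 + (y : ℂ) • M1)) := by fun_prop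
    exact this.matrix_det
  exact h1.continuousAt.eventually_ne h

theorem det_ev_z {x : ℝ} {z : ℂ} (h : (z • (1 : Matrix m m ℂ) - (M0 + (x : ℂ) • M1)).det ≠ 0) :
    ∀ᶠ w : ℂ in 𝓝 z, (w • (1 : Matrix m m ℂ) - (M0 + (x : ℂ) • M1)).det ≠ 0 := by
  have h1 : Continuous fun w : ℂ => (w • (1 : Matrix m m ℂ) - (M0 + (x : ℂ) • M1)).det := by
    have : Continuous fun w : ℂ => (w • (1 : Matrix m m ℂ) - (M0 + (x : ℂ) • M1)) := by fun_prop
    exact this.matrix_det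
  exact h1.continuousAt.eventually_ne h

theorem hasDerivAt_tr_x (A : Matrix m m ℂ) {x : ℝ} {z : ℂ}
    (h : (z • (1 : Matrix m m ℂ) - (M0 + (x : ℂ) • M1)).det ≠ 0) :
    HasDerivAt (fun x : ℝ => (RR M0 M1 x z * A).trace)
      (RR M0 M1 x z * M1 * (RR M0 M1 x z * A)).trace x := by
  rw [hasDerivAt_iff_tendsto_slope]
  have hc : Tendsto (fun y : ℝ => (RR M0 M1 y z * M1 * (RR M0 M1 x z * A)).trace) (𝓝[≠] x)
      (𝓝 (RR M0 M1 x z * M1 * (RR M0 M1 x z * A)).trace) := by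
    have h1 : ContinuousAt (fun y : ℝ => RR M0 M1 y z) x :=
      ContinuousAt.comp (f := fun y : ℝ => ((y, z) : ℝ × ℂ))
        (g := fun q : ℝ × ℂ => RR M0 M1 q.1 q.2) (RR_cont M0 M1 h) (by fun_prop)
    have h2 : ContinuousAt (fun y : ℝ => (RR M0 M1 y z * M1 * (RR M0 M1 x z * A)).trace) x := by
      have h3 : Continuous fun Q : Matrix m m ℂ => (Q * M1 * (RR M0 M1 x z * A)).trace := by
        fun_prop
      exact ContinuousAt.comp (g := fun Q : Matrix m m ℂ => (Q * M1 * (RR M0 M1 x z * A)).trace)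
        h3.continuousAt h1
    exact h2.tendsto.mono_left nhdsWithin_le_nhds
  refine hc.congr' ?_
  filter_upwards [nhdsWithin_le_nhds (det_ev_x M0 M1 h), self_mem_nhdsWithin] with y hy hne
  have hne' : (y : ℂ) - x ≠ 0 := by
    rw [sub_ne_zero]; exact_mod_cast hne
  rw [slope_def_module]
  have e := RR_sub_x M0 M1 h hy
  have e2 : (RR M0 M1 y z * A).trace - (RR M0 M1 x z * A).trace =
      ((y : ℂ) - x) * (RR M0 M1 y z * M1 * (RR M0 M1 x z * A)).trace := by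
    rw [← Matrix.trace_sub, ← Matrix.sub_mul, e, Matrix.smul_mul, Matrix.trace_smul, smul_eq_mul,
      Matrix.mul_assoc (RR M0 M1 y z * M1)]
  rw [e2]
  have e3 : ((y - x : ℝ)⁻¹ : ℝ) • (((y : ℂ) - x) * (RR M0 M1 y z * M1 * (RR M0 M1 x z * A)).trace)
      = (RR M0 M1 y z * M1 * (RR M0 M1 x z * A)).trace := by
    rw [Complex.real_smul]
    push_cast
    rw [← mul_assoc, inv_mul_cancel₀ hne', one_mul]
  exact e3.symm

theorem hasDerivAt_tr_z (A : Matrix m m ℂ) {x : ℝ} {z : ℂ}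
    (h : (z • (1 : Matrix m m ℂ) - (M0 + (x : ℂ) • M1)).det ≠ 0) :
    HasDerivAt (fun z : ℂ => (RR M0 M1 x z * A).trace)
      (-(RR M0 M1 x z * (RR M0 M1 x z * A)).trace) z := by
  rw [hasDerivAt_iff_tendsto_slope]
  have hc : Tendsto (fun w : ℂ => -(RR M0 M1 x w * (RR M0 M1 x z * A)).trace) (𝓝[≠] z)
      (𝓝 (-(RR M0 M1 x z * (RR M0 M1 x z * A)).trace)) := by
    have h1 : ContinuousAt (fun w : ℂ => RR M0 M1 x w) z :=
      ContinuousAt.comp (f := fun w : ℂ => ((x, w) : ℝ × ℂ))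
        (g := fun q : ℝ × ℂ => RR M0 M1 q.1 q.2) (RR_cont M0 M1 h) (by fun_prop)
    have h2 : ContinuousAt (fun w : ℂ => -(RR M0 M1 x w * (RR M0 M1 x z * A)).trace) z := by
      have h3 : Continuous fun Q : Matrix m m ℂ => -(Q * (RR M0 M1 x z * A)).trace := by
        fun_prop
      exact ContinuousAt.comp (g := fun Q : Matrix m m ℂ => -(Q * (RR M0 M1 x z * A)).trace)
        h3.continuousAt h1
    exact h2.tendsto.mono_left nhdsWithin_le_nhds
  refine hc.congr' ?_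
  filter_upwards [nhdsWithin_le_nhds (det_ev_z M0 M1 h), self_mem_nhdsWithin] with w hw hne
  have hne' : w - z ≠ 0 := by
    rw [sub_ne_zero]; exact hne
  rw [slope_def_field]
  have e := RR_sub_z M0 M1 h hw
  have e2 : (RR M0 M1 x w * A).trace - (RR M0 M1 x z * A).trace =
      (w - z) * (-(RR M0 M1 x w * (RR M0 M1 x z * A)).trace) := by
    rw [← Matrix.trace_sub, ← Matrix.sub_mul, e, Matrix.smul_mul, Matrix.trace_smul, smul_eq_mul,
      Matrix.neg_mul, Matrix.trace_neg, Matrix.mul_assoc]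
  rw [e2, mul_div_cancel_left₀ _ hne']

end Pool.Agent.QB
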