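import Pool.Agent.Lib_helper69.QB.CIM

/-!
# MP_859019, QS, block CIM, second half
-/

set_option autoImplicit false

open scoped BigOperators Topology Real
open MeasureTheory Set Matrix Filter Metric

namespace Pool.Agent.QB

variable {m : Type} [Fintype m] [DecidableEq m]

theorem re_pos_of_mem {c ρ : ℝ} (hc : ρ < c) {z : ℂ} (hz : z ∈ sphere (c : ℂ) ρ) : 0 < z.re := by
  have h1 : ‖z - (c : ℂ)‖ = ρ := by simpa [dist_eq_norm] using hz
  have h2 : |(z - (c : ℂ)).re| ≤ ‖z - (c : ℂ)‖ := Complex.abs_re_le_norm _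
  rw [h1, Complex.sub_re, Complex.ofReal_re] at h2
  have h3 := (abs_le.1 h2).1
  linarith

theorem slit_of_mem {c ρ : ℝ} (hc : ρ < c) {z : ℂ} (hz : z ∈ sphere (c : ℂ) ρ) :
    z ∈ Complex.slitPlane := Or.inl (re_pos_of_mem hc hz)

theorem cont_cpow {c ρ : ℝ} (hc : ρ < c) (q : ℂ) :
    ContinuousOn (fun z : ℂ => z ^ q) (sphere (c : ℂ) ρ) := by
  intro z hz
  exact (continuousAt_cpow_const (slit_of_mem hc hz)).continuousWithinAt

/-- the closed range of parameters -/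
theorem circle_family {c ρ : ℝ} (hρ : 0 < ρ) (hc : ρ < c) (M0 M1 A : Matrix m m ℂ) (q : ℂ)
    {x0 δ : ℝ} (hδ : 0 < δ)
    (hdet : ∀ x : ℝ, |x - x0| ≤ δ → ∀ z ∈ sphere (c : ℂ) ρ,
      (z • (1 : Matrix m m ℂ) - (M0 + (x : ℂ) • M1)).det ≠ 0) :
    HasDerivAt (fun x : ℝ => ∮ z in C(c, ρ), z ^ q * (RR M0 M1 x z * A).trace)
      (∮ z in C(c, ρ), z ^ q * (RR M0 M1 x0 z * M1 * (RR M0 M1 x0 z * A)).trace) x0 := by
  have hRc : ContinuousOn (fun p : ℝ × ℂ => RR M0 M1 p.1 p.2)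
      ({x | |x - x0| ≤ δ} ×ˢ sphere (c : ℂ) ρ) := by
    rintro ⟨x, z⟩ ⟨hx, hz⟩
    exact (RR_cont M0 M1 (hdet x hx z hz)).continuousWithinAt
  refine hasDerivAt_circle hρ.le hδ
    (F := fun x z => z ^ q * (RR M0 M1 x z * A).trace)
    (F' := fun x z => z ^ q * (RR M0 M1 x z * M1 * (RR M0 M1 x z * A)).trace) ?_ ?_ ?_
  · intro x hx
    have h2 : ContinuousOn (fun z : ℂ => ((x, z) : ℝ × ℂ)) (sphere (c : ℂ) ρ) := by fun_prop
    have h1 : ContinuousOn (fun z : ℂ => RR M0 M1 x z) (sphere (c : ℂ) ρ) :=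
      ContinuousOn.comp (g := fun p : ℝ × ℂ => RR M0 M1 p.1 p.2) (f := fun z : ℂ => ((x, z) : ℝ × ℂ))
        hRc h2 fun z hz => ⟨hx, hz⟩
    have h3 : Continuous fun Q : Matrix m m ℂ => (Q * A).trace := by fun_prop
    have h4 : ContinuousOn (fun z : ℂ => (RR M0 M1 x z * A).trace) (sphere (c : ℂ) ρ) :=
      Continuous.comp_continuousOn (g := fun Q : Matrix m m ℂ => (Q * A).trace)
        (f := fun z : ℂ => RR M0 M1 x z) h3 h1
    exact (cont_cpow hc q).mul h4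
  · have h0 : ContinuousOn (fun p : ℝ × ℂ => p.2 ^ q) ({x | |x - x0| ≤ δ} ×ˢ sphere (c : ℂ) ρ) :=
      (cont_cpow hc q).comp continuousOn_snd fun p hp => hp.2
    have h3 : Continuous fun Q : Matrix m m ℂ => (Q * M1 * (Q * A)).trace := by fun_prop
    have h4 : ContinuousOn (fun p : ℝ × ℂ =>
        (RR M0 M1 p.1 p.2 * M1 * (RR M0 M1 p.1 p.2 * A)).trace)
        ({x | |x - x0| ≤ δ} ×ˢ sphere (c : ℂ) ρ) :=
      Continuous.comp_continuousOn (g := fun Q : Matrix m m ℂ => (Q * M1 * (Q * A)).trace)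
        (f := fun p : ℝ × ℂ => RR M0 M1 p.1 p.2) h3 hRc
    exact h0.mul h4
  · intro x hx z hz
    exact (hasDerivAt_tr_x M0 M1 A (hdet x hx z hz)).const_mul (z ^ q)

/-- integration by parts on the circle -/
theorem circle_parts {c ρ : ℝ} (hρ : 0 < ρ) (hc : ρ < c) (M0 M1 : Matrix m m ℂ) (p x : ℝ)
    (hdet : ∀ z ∈ sphere (c : ℂ) ρ, (z • (1 : Matrix m m ℂ) - (M0 + (x : ℂ) • M1)).det ≠ 0) :
    (∮ z in C(c, ρ), z ^ (p : ℂ) * (RR M0 M1 x z * M1 * (RR M0 M1 x z * 1)).trace) =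
      p * ∮ z in C(c, ρ), z ^ ((p - 1 : ℝ) : ℂ) * (RR M0 M1 x z * M1).trace := by
  have hRc : ContinuousOn (fun z : ℂ => RR M0 M1 x z) (sphere (c : ℂ) ρ) := by
    intro z hz
    have h1 := RR_cont M0 M1 (hdet z hz)
    exact (ContinuousAt.comp (f := fun w : ℂ => ((x, w) : ℝ × ℂ))
        (g := fun q : ℝ × ℂ => RR M0 M1 q.1 q.2) h1 (by fun_prop)).continuousWithinAt
  have hF : ∀ z ∈ sphere (c : ℂ) ρ, HasDerivWithinAt
      (fun z : ℂ => z ^ (p : ℂ) * (RR M0 M1 x z * M1).trace)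
      (p * (z ^ ((p - 1 : ℝ) : ℂ) * (RR M0 M1 x z * M1).trace) -
        z ^ (p : ℂ) * (RR M0 M1 x z * M1 * (RR M0 M1 x z * 1)).trace) (sphere (c : ℂ) ρ) z := by
    intro z hz
    have h1 : HasDerivAt (fun z : ℂ => z ^ (p : ℂ)) ((p : ℂ) * z ^ ((p : ℂ) - 1) * 1) z :=
      (hasDerivAt_id z).cpow_const (slit_of_mem hc hz)
    have h2 := hasDerivAt_tr_z M0 M1 M1 (hdet z hz)
    refine ((h1.mul h2).congr_deriv ?_).hasDerivWithinAt
    have e1 : ((p - 1 : ℝ) : ℂ) = (p : ℂ) - 1 := by push_cast; rfl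
    have e2 : (RR M0 M1 x z * (RR M0 M1 x z * M1)).trace =
        (RR M0 M1 x z * M1 * (RR M0 M1 x z * 1)).trace := by
      rw [Matrix.mul_one, Matrix.trace_mul_comm]
    rw [e1, e2]
    ring
  have h0 := circleIntegral.integral_eq_zero_of_hasDerivWithinAt hρ.le hF
  have c1 : ContinuousOn (fun z : ℂ => z ^ ((p - 1 : ℝ) : ℂ) * (RR M0 M1 x z * M1).trace)
      (sphere (c : ℂ) ρ) := by
    have h3 : Continuous fun Q : Matrix m m ℂ => (Q * M1).trace := by fun_prop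
    exact (cont_cpow hc _).mul (Continuous.comp_continuousOn
      (g := fun Q : Matrix m m ℂ => (Q * M1).trace) (f := fun z : ℂ => RR M0 M1 x z) h3 hRc)
  have c2 : ContinuousOn (fun z : ℂ => z ^ (p : ℂ) * (RR M0 M1 x z * M1 * (RR M0 M1 x z * 1)).trace)
      (sphere (c : ℂ) ρ) := by
    have h3 : Continuous fun Q : Matrix m m ℂ => (Q * M1 * (Q * (1 : Matrix m m ℂ))).trace := by
      fun_prop
    have h4 : ContinuousOn (fun z : ℂ => (RR M0 M1 x z * M1 *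
        (RR M0 M1 x z * (1 : Matrix m m ℂ))).trace) (sphere (c : ℂ) ρ) :=
      Continuous.comp_continuousOn
        (g := fun Q : Matrix m m ℂ => (Q * M1 * (Q * (1 : Matrix m m ℂ))).trace)
        (f := fun z : ℂ => RR M0 M1 x z) h3 hRc
    exact (cont_cpow hc _).mul h4
  have i1 : CircleIntegrable (fun z : ℂ => (p : ℂ) * (z ^ ((p - 1 : ℝ) : ℂ) *
      (RR M0 M1 x z * M1).trace)) c ρ :=
    (ContinuousOn.circleIntegrable hρ.le (ContinuousOn.const_mul c1 (p : ℂ)))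
  rw [circleIntegral.integral_sub i1 (c2.circleIntegrable hρ.le),
    circleIntegral.integral_const_mul] at h0
  exact (sub_eq_zero.1 h0).symm

theorem hasDerivAt_re {f : ℝ → ℝ} {F : ℝ → ℂ} {F' : ℂ} {x : ℝ} (h : HasDerivAt F F' x)
    (e : ∀ᶠ y in 𝓝 x, ((f y : ℝ) : ℂ) = F y) : HasDerivAt f F'.re x ∧ ((F'.re : ℝ) : ℂ) = F' := by
  have h1 : HasDerivAt (fun y => (F y).re) F'.re x :=
    Complex.reCLM.hasFDerivAt.comp_hasDerivAt x h
  have h2 : HasDerivAt f F'.re x := by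
    refine h1.congr_of_eventuallyEq ?_
    filter_upwards [e] with y hy
    rw [← hy, Complex.ofReal_re]
  have h3 : HasDerivAt (fun y => ((f y : ℝ) : ℂ)) ((F'.re : ℝ) : ℂ) x := h2.ofReal_comp
  have h4 : HasDerivAt (fun y => ((f y : ℝ) : ℂ)) F' x := h.congr_of_eventuallyEq e
  exact ⟨h2, h3.unique h4⟩

theorem cim (M0 M1 : Matrix m m ℂ) (p c ρ : ℝ) (hρ : 0 < ρ) (hc : ρ < c) (h : ℝ → ℝ)
    (hh : ∀ᶠ x : ℝ in 𝓝 (0 : ℝ), (∀ z ∈ Metric.sphere (c : ℂ) ρ,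
        (z • (1 : Matrix m m ℂ) - (M0 + (x : ℂ) • M1)).det ≠ 0) ∧
      ((h x : ℝ) : ℂ) = (2 * π * Complex.I : ℂ)⁻¹ * ∮ z in C(c, ρ), z ^ (p : ℂ) *
        ((z • (1 : Matrix m m ℂ) - (M0 + (x : ℂ) • M1))⁻¹).trace) :
    ∃ D : ℝ, C2at h D ∧ (D : ℂ) = p * (2 * π * Complex.I : ℂ)⁻¹ * ∮ z in C(c, ρ),
      z ^ ((p - 1 : ℝ) : ℂ) * ((z • (1 : Matrix m m ℂ) - M0)⁻¹ * M1 *
        ((z • (1 : Matrix m m ℂ) - M0)⁻¹ * M1)).trace := by
  obtain ⟨ε, hε, H⟩ := Metric.eventually_nhds_iff.1 hh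
  have Hd : ∀ x : ℝ, |x| < ε → ∀ z ∈ sphere (c : ℂ) ρ,
      (z • (1 : Matrix m m ℂ) - (M0 + (x : ℂ) • M1)).det ≠ 0 := by
    intro x hx
    exact (H (by rwa [Real.dist_eq, sub_zero])).1
  have Hv : ∀ x : ℝ, |x| < ε → ((h x : ℝ) : ℂ) = (2 * π * Complex.I : ℂ)⁻¹ *
      ∮ z in C(c, ρ), z ^ (p : ℂ) * (RR M0 M1 x z * 1).trace := by
    intro x hx
    rw [(H (by rwa [Real.dist_eq, sub_zero])).2]
    simp only [RR, Matrix.mul_one]
  set K : ℂ := (2 * π * Complex.I : ℂ)⁻¹ with hK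
  set F1 : ℝ → ℂ := fun x => K * (p * ∮ z in C(c, ρ), z ^ ((p - 1 : ℝ) : ℂ) *
    (RR M0 M1 x z * M1).trace) with hF1
  have D1 : ∀ x : ℝ, |x| < ε → HasDerivAt h (F1 x).re x ∧ (((F1 x).re : ℝ) : ℂ) = F1 x := by
    intro x hx
    have hδ : 0 < (ε - |x|) / 2 := by linarith
    have hin : ∀ y : ℝ, |y - x| ≤ (ε - |x|) / 2 → |y| < ε := by
      intro y hy
      have : |y| ≤ |y - x| + |x| := by
        have := abs_add_le (y - x) x
        simpa using this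
      linarith
    have h1 := circle_family hρ hc M0 M1 1 (p : ℂ) (x0 := x) hδ
      (fun y hy => Hd y (hin y hy))
    rw [circle_parts hρ hc M0 M1 p x (Hd x hx)] at h1
    have h2 := h1.const_mul K
    refine hasDerivAt_re h2 ?_
    have h3 : ∀ᶠ y in 𝓝 x, |y| < ε :=
      (continuous_abs.continuousAt.eventually_lt continuousAt_const hx)
    filter_upwards [h3] with y hy
    exact Hv y hy
  have hδ : 0 < ε / 2 := by linarith
  have h4 := circle_family hρ hc M0 M1 M1 ((p - 1 : ℝ) : ℂ) (x0 := 0) hδ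
    (fun y hy => Hd y (by
      have : |y| ≤ ε / 2 := by simpa using hy
      linarith))
  have h5 := (h4.const_mul (p : ℂ)).const_mul K
  have hev : ∀ᶠ y : ℝ in 𝓝 (0 : ℝ), |y| < ε :=
    (continuous_abs.continuousAt.eventually_lt continuousAt_const (by simpa using hε))
  obtain ⟨h6, h7⟩ := hasDerivAt_re (f := fun x => (F1 x).re) (F := F1) h5 (by
    filter_upwards [hev] with y hy
    exact (D1 y hy).2)
  refine ⟨_, ⟨fun x => (F1 x).re, ?_, h6⟩, ?_⟩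
  · filter_upwards [hev] with y hy
    exact (D1 y hy).1
  · rw [h7]
    have e : ∀ z : ℂ, RR M0 M1 0 z = (z • (1 : Matrix m m ℂ) - M0)⁻¹ := by
      intro z; simp [RR]
    simp only [e]
    ring

end Pool.Agent.QB
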